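import Mathlib
import Pool.Agent.Helper27.BoxDraw.Defs
import Pool.Agent.Helper27.BoxDraw.Upper
import Pool.Agent.Helper27.BoxDraw.Lower

/-!
# The volume of 1-bend orthogonal box-drawings of complete graphs is `Θ(n³)`

`V₁(n)` (`Pool.Agent.Helper27.BoxDraw.V1`) is the minimum volume of a three-dimensional orthogonal
1-bend box-drawing of `K_n`. We prove `n³ / 10¹² ≤ V₁(n) ≤ n³` for all `n ≥ 1`.

Idea of the lower bound. A route with at most one bend lies in a plane perpendicular to one of
the axes. (1) Let `U` be a set of boxes which all meet one plane perpendicular to the axis `k`.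
Then at most `32 D |U|` pairs of them are joined by a route of two legs of length at most `D` in
planes perpendicular to `k`: raise (or lower) the plane of the route to the point where the first of
the two boxes ends, all other boxes of `U` that still exist existed before, so the second box is
determined by the first one and the position of the bend. (2) For each axis, cut the axis at a bounded
number of thresholds; after restriction to the boxes which meet a threshold, or to those which meet
none, almost all pairs joined by a short route perpendicular to this axis have a common threshold,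
so there are few. (3) Doing this for the three axes leaves `n / 8` boxes which have few short
routes, hence there are `Ω(n²)` disjoint routes of length `Ω(n)`.
-/

namespace Pool.Agent.Results.MP_40073f_co.CubicVolume

open Pool.Agent.Helper27.BoxDraw

/-- `V₁(n)` is the volume of some drawing, it is between `n³ / 10¹²` and `n³` for all `n ≥ 1`, and
`V₁(n) = Θ(n³)`. -/
theorem result :
    (∀ n : ℕ, 1 ≤ n →
      (∃ (D : Drawing (⊤ : SimpleGraph (Fin n))) (B : GBox), D.In B ∧ B.vol = V1 n) ∧
      (∀ (D : Drawing (⊤ : SimpleGraph (Fin n))) (B : GBox), D.In B → V1 n ≤ B.vol) ∧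
      (n : ℝ) ^ 3 / 10 ^ 12 ≤ (V1 n : ℝ) ∧ (V1 n : ℝ) ≤ (n : ℝ) ^ 3) ∧
    (fun n : ℕ => (V1 n : ℝ)) =Θ[Filter.atTop] (fun n : ℕ => (n : ℝ) ^ 3) := by
  have main : ∀ n : ℕ, 1 ≤ n →
      (∃ (D : Drawing (⊤ : SimpleGraph (Fin n))) (B : GBox), D.In B ∧ B.vol = V1 n) ∧
      (∀ (D : Drawing (⊤ : SimpleGraph (Fin n))) (B : GBox), D.In B → V1 n ≤ B.vol) ∧
      (n : ℝ) ^ 3 / 10 ^ 12 ≤ (V1 n : ℝ) ∧ (V1 n : ℝ) ≤ (n : ℝ) ^ 3 := by
    intro n hn
    have hne : {m | ∃ (D : Drawing (⊤ : SimpleGraph (Fin n))) (B : GBox),
        D.In B ∧ B.vol = m}.Nonempty := ⟨_, udraw n, bbox n hn, udraw_in n hn, rfl⟩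
    obtain ⟨D, B, hDB, hv⟩ := Nat.sInf_mem hne
    have hv' : B.vol = V1 n := hv
    refine ⟨⟨D, B, hDB, hv'⟩, fun D B h => Nat.sInf_le ⟨D, B, h, rfl⟩, ?_, by exact_mod_cast V1_le n hn⟩
    rw [← hv']
    have key : n ^ 3 ≤ 10 ^ 12 * B.vol := by
      rcases le_or_gt 6144 n with h | h
      · have := lower h D B hDB
        omega
      · have h1 : n ^ 3 ≤ 6144 ^ 3 := Nat.pow_le_pow_left h.le 3
        have h2 := vol_pos B
        omega
    rw [div_le_iff₀ (by positivity)]
    have : ((n ^ 3 : ℕ) : ℝ) ≤ ((10 ^ 12 * B.vol : ℕ) : ℝ) := by exact_mod_cast key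
    push_cast at this
    linarith
  refine ⟨main, ?_, ?_⟩
  · refine Asymptotics.IsBigO.of_bound 1 ?_
    filter_upwards [Filter.eventually_ge_atTop 1] with n hn
    rw [Real.norm_of_nonneg (by positivity), Real.norm_of_nonneg (by positivity), one_mul]
    exact (main n hn).2.2.2
  · refine Asymptotics.IsBigO.of_bound (10 ^ 12) ?_
    filter_upwards [Filter.eventually_ge_atTop 1] with n hn
    rw [Real.norm_of_nonneg (by positivity), Real.norm_of_nonneg (by positivity)]
    have := (main n hn).2.2.1
    rw [div_le_iff₀ (by positivity)] at this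
    linarith

end Pool.Agent.Results.MP_40073f_co.CubicVolume
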